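import Pool.Agent.Q10.PK.Row4

/-!
# Packing the progressions of multiples up to `n`

The least `m` such that the sets `A_d` of the multiples of `d` up to `n`, `1 ≤ d ≤ n`, pack into
`{1, …, m}` is asymptotically `(4 / 3) n ^ (3 / 2) / log n`.
-/

set_option autoImplicit false

namespace Pool.Agent.Results.MP_f78dbe_co.AllMultiples

open Filter Topology
open Pool.Agent.Q10.PK (PackInto prog mAll)

/-- Let `mAll n` be the least `m` such that the sets `A_d = {d, 2d, …, ⌊n / d⌋ d}`, `1 ≤ d ≤ n`,
pack into `{1, …, m}`. Then `mAll n * log n / n ^ (3 / 2)` tends to `4 / 3`. -/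
theorem result :
    Tendsto (fun n : ℕ => (mAll n : ℝ) * Real.log n / (n : ℝ) ^ (3 / 2 : ℝ)) atTop (𝓝 (4 / 3)) :=
  Pool.Agent.Q10.PK.row4

end Pool.Agent.Results.MP_f78dbe_co.AllMultiples
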